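import Pool.Agent.OPH.Stmts

set_option autoImplicit false

/-! Squad OPH, row MA2 (proof of helper27, adapted to the corrected statement of row PA2). -/

namespace Pool.Agent.OPH.H72

open Finset Pool.Agent.OPG

theorem exists_large (C : ℕ) :
    ∃ L : ℕ, ∀ l : ℕ, L ≤ l → 10 ^ 8 ≤ l ∧ 3 ^ 50 * l ^ (50 * C) ≤ 2 ^ l := by
  have h := tendsto_pow_const_div_const_pow_of_one_lt (50 * C) (by norm_num : (1 : ℝ) < 2)
  have h1 : ∀ᶠ n : ℕ in Filter.atTop, (n : ℝ) ^ (50 * C) / 2 ^ n < 1 / 3 ^ 50 :=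
    h.eventually (gt_mem_nhds (by positivity))
  obtain ⟨L, hL⟩ := Filter.eventually_atTop.1 (h1.and (Filter.eventually_ge_atTop (10 ^ 8)))
  refine ⟨L, fun l hl => ⟨(hL l hl).2, ?_⟩⟩
  have h2 := (hL l hl).1
  have h3 : (0 : ℝ) < 2 ^ l := by positivity
  rw [div_lt_div_iff₀ h3 (by positivity)] at h2
  have h4 : (3 : ℝ) ^ 50 * (l : ℝ) ^ (50 * C) ≤ 2 ^ l := by linarith
  exact_mod_cast h4

theorem ineq (a p d ch cu : ℝ) (hp : 10 ^ 8 ≤ p) (ha : p ^ 40 ≤ a)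
    (h1 : a ≤ 2040 * p ^ 14 * ch) (h2 : ch ≤ cu + 2 * d)
    (h3 : cu ≤ 1 + (p ^ 5) ^ 4 + 280 * a / (p ^ 5) ^ 3) : a ≤ 8160 * p ^ 14 * d := by
  have p0 : 0 < p := by linarith
  have a0 : 0 < a := lt_of_lt_of_le (by positivity) ha
  have e1 : 2040 * p ^ 14 * (280 * a / (p ^ 5) ^ 3) = 571200 * a / p := by
    field_simp
    ring
  have e2 : 571200 * a / p ≤ a / 4 := by
    rw [div_le_div_iff₀ p0 (by norm_num)]
    nlinarith
  have e3 : 2040 * p ^ 14 * (1 + (p ^ 5) ^ 4) ≤ a / 4 := by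
    have k1 : (1 : ℝ) ≤ p ^ 20 := one_le_pow₀ (by linarith)
    have k2 : 2040 * p ^ 14 * (1 + (p ^ 5) ^ 4) ≤ 4080 * p ^ 34 := by
      have : 4080 * p ^ 34 = 2040 * p ^ 14 * (p ^ 20 + p ^ 20) := by ring
      rw [this]
      have : (p ^ 5) ^ 4 = p ^ 20 := by ring
      rw [this]
      exact mul_le_mul_of_nonneg_left (by linarith) (by positivity)
    have k3 : (16320 : ℝ) ≤ p ^ 6 := by
      calc (16320 : ℝ) ≤ 10 ^ 8 := by norm_num
        _ ≤ p := hp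
        _ ≤ p ^ 6 := le_self_pow₀ (by linarith) (by norm_num)
    have k4 : 16320 * p ^ 34 ≤ a := by
      calc 16320 * p ^ 34 ≤ p ^ 6 * p ^ 34 := mul_le_mul_of_nonneg_right k3 (by positivity)
        _ = p ^ 40 := by ring
        _ ≤ a := ha
    linarith
  have e4 : a ≤ 2040 * p ^ 14 * (1 + (p ^ 5) ^ 4 + 280 * a / (p ^ 5) ^ 3 + 2 * d) := by
    refine h1.trans (mul_le_mul_of_nonneg_left ?_ (by positivity))
    linarith
  have e5 : 2040 * p ^ 14 * (1 + (p ^ 5) ^ 4 + 280 * a / (p ^ 5) ^ 3 + 2 * d) =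
      2040 * p ^ 14 * (1 + (p ^ 5) ^ 4) + 2040 * p ^ 14 * (280 * a / (p ^ 5) ^ 3) +
        4080 * p ^ 14 * d := by ring
  rw [e5, e1] at e4
  linarith

theorem ma2 (hChg : ChgStmt) (hCt3 : Ct3Stmt) (hPa2 : Pa2Stmt) : Ma2Stmt := by
  intro n1 hn1
  obtain ⟨C, D, hC1, hC⟩ := hPa2 n1 hn1
  obtain ⟨L, hL⟩ := exists_large C
  obtain ⟨K, hK⟩ : ∃ K : ℕ, K = 16320 * 3 ^ 24 := ⟨_, rfl⟩
  obtain ⟨N, hN⟩ : ∃ N : ℕ, N = 2 ^ L := ⟨_, rfl⟩
  refine ⟨C + 24 * C + K + N + D, by omega, ?_⟩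
  intro M f e hM hev hf hf1
  set l := Nat.log 2 M with hl
  have hNM : 2 ^ L ≤ M := by omega
  have hM0 : M ≠ 0 := by
    have := Nat.two_pow_pos L
    omega
  have hLl : L ≤ l := Nat.le_log_of_pow_le (by norm_num) hNM
  obtain ⟨hl8, hl50⟩ := hL l hLl
  have hlM : 2 ^ l ≤ M := Nat.pow_log_le_self 2 hM0
  have hl1 : 1 ≤ l := le_trans (by norm_num) hl8
  have hlC : 10 ^ 8 ≤ l ^ C := hl8.trans (Nat.le_self_pow (by omega) l)
  obtain ⟨P, hP⟩ : ∃ P : ℕ, P = 2 * l ^ C + 1 := ⟨_, rfl⟩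
  have hP3 : P ≤ 3 * l ^ C := by omega
  have hP8 : 10 ^ 8 ≤ P := by omega
  have hP50 : P ^ 50 ≤ M := by
    calc P ^ 50 ≤ (3 * l ^ C) ^ 50 := Nat.pow_le_pow_left hP3 50
      _ = 3 ^ 50 * l ^ (50 * C) := by rw [mul_pow, ← pow_mul, mul_comm C 50]
      _ ≤ 2 ^ l := hl50
      _ ≤ M := hlM
  have hPpos : 0 < P ^ 10 := Nat.pos_of_ne_zero (by positivity)
  obtain ⟨A, hA⟩ : ∃ A : ℕ, A = M / P ^ 10 := ⟨_, rfl⟩
  have hA1 : A * P ^ 10 ≤ M := hA ▸ Nat.div_mul_le_self M _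
  have hA2 : M < (A + 1) * P ^ 10 := by
    rw [hA]
    exact Nat.lt_mul_of_div_lt (Nat.lt_succ_self _) hPpos
  have hA40 : P ^ 40 ≤ A := by
    rw [hA, Nat.le_div_iff_mul_le hPpos, ← pow_add]
    exact hP50
  have hP1 : 1 ≤ P := le_trans (by norm_num) hP8
  have hPA : P ≤ A := (Nat.le_self_pow (by norm_num) P).trans hA40
  have hA100 : 100 ≤ A := le_trans (le_trans (by norm_num) hP8) hPA
  have hs10 : 10 ≤ P ^ 5 :=
    le_trans (le_trans (by norm_num) hP8) (Nat.le_self_pow (by norm_num) P)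
  have i1 := hC P M A f (by omega) hP hA1 hA2 hf hf1
  have i2 := hChg f e M (M + A) (M + 2 * A) hf
  have e10 : P ^ 10 = (P ^ 5) ^ 2 := by rw [← pow_mul]
  have i3 := hCt3 M A (P ^ 5) hev hA100 hs10 (by rw [← e10]; exact hA1) (by rw [← e10]; exact hA2)
  have j1 : (A : ℝ) ≤ 2040 * (P : ℝ) ^ 14 * ((CH f (M + A) (M + 2 * A)).card : ℝ) := by
    exact_mod_cast i1
  have j2 : ((CH f (M + A) (M + 2 * A)).card : ℝ) ≤
      ((CU M (M + A) (M + 2 * A)).card : ℝ) + 2 * ((DS f e M : ℕ) : ℝ) := by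
    exact_mod_cast i2
  have j3 : ((CU M (M + A) (M + 2 * A)).card : ℝ) ≤
      1 + ((P : ℝ) ^ 5) ^ 4 + 280 * A / ((P : ℝ) ^ 5) ^ 3 := by
    have := i3
    push_cast at this
    exact this
  have j4 : ((10 : ℝ) ^ 8) ≤ P := by exact_mod_cast hP8
  have j5 : (P : ℝ) ^ 40 ≤ A := by exact_mod_cast hA40
  have j6 := ineq A P (DS f e M : ℕ) _ _ j4 j5 j1 j2 j3
  have k6 : A ≤ 8160 * P ^ 14 * DS f e M := by exact_mod_cast j6
  have k7 : M ≤ 16320 * P ^ 24 * DS f e M := by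
    calc M ≤ (A + 1) * P ^ 10 := hA2.le
      _ ≤ (2 * A) * P ^ 10 := Nat.mul_le_mul_right _ (by omega)
      _ ≤ (2 * (8160 * P ^ 14 * DS f e M)) * P ^ 10 :=
          Nat.mul_le_mul_right _ (Nat.mul_le_mul_left _ k6)
      _ = 16320 * P ^ 24 * DS f e M := by ring
  calc M ≤ 16320 * P ^ 24 * DS f e M := k7
    _ ≤ 16320 * (3 * l ^ C) ^ 24 * DS f e M :=
        Nat.mul_le_mul_right _ (Nat.mul_le_mul_left _ (Nat.pow_le_pow_left hP3 24))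
    _ = (16320 * 3 ^ 24) * l ^ (24 * C) * DS f e M := by
        rw [mul_pow, ← pow_mul, mul_comm C 24, ← mul_assoc 16320]
    _ ≤ (C + 24 * C + K + N + D) * l ^ (C + 24 * C + K + N + D) * DS f e M := by
        refine Nat.mul_le_mul_right _ (Nat.mul_le_mul ?_ ?_)
        · rw [← hK]; omega
        · exact Nat.pow_le_pow_right hl1 (by omega)

end Pool.Agent.OPH.H72
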