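import Pool.Agent.OPH.StmtsB

set_option autoImplicit false

/-! Squad OPH, row STA: the combination of logarithms is not small at `r` or at `3 r`. -/

namespace Pool.Agent.OPH.H72

open Finset Pool.Agent.OPG Pool.Agent.OPH

theorem sta : StaStmt := by
  intro c N h r hN hc0 hc hr hh
  by_contra hcon
  push Not at hcon
  obtain ⟨h1, h2⟩ := hcon
  have hN1 : (1 : ℝ) ≤ N := by exact_mod_cast hN
  have hr0 : (0 : ℝ) < r := by linarith
  have hh0 : (0 : ℝ) < h := by nlinarith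
  have hlog3 : (101 / 100 : ℝ) ≤ Real.log 3 := by
    have h3 : 3 * Real.log 2 ≤ 2 * Real.log 3 := by
      have e1 : 3 * Real.log 2 = Real.log ((2 : ℝ) ^ 3) := by rw [Real.log_pow]; norm_num
      have e2 : 2 * Real.log 3 = Real.log ((3 : ℝ) ^ 2) := by rw [Real.log_pow]; norm_num
      rw [e1, e2]
      exact Real.log_le_log (by norm_num) (by norm_num)
    have h4 := Real.log_two_gt_d9
    linarith
  -- the difference
  have hdiff : PH c N h (3 * r) - PH c N h r = ∑ j ∈ range N, (c j : ℝ) *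
      (Real.log (3 * r + 2 * h * j) - Real.log (r + 2 * h * j)) := by
    unfold PH
    rw [← Finset.sum_sub_distrib]
    exact Finset.sum_congr rfl fun j _ => by ring
  obtain ⟨n, rfl⟩ : ∃ n, N = n + 1 := ⟨N - 1, by omega⟩
  rw [Finset.sum_range_succ'] at hdiff
  have hterm : ∀ j ∈ range n, |(c (j + 1) : ℝ) * (Real.log (3 * r + 2 * h * ((j + 1 : ℕ) : ℝ)) -
      Real.log (r + 2 * h * ((j + 1 : ℕ) : ℝ)))| ≤ 1 / (100 * ((n + 1 : ℕ) : ℝ)) := by
    intro j _
    have hj : (1 : ℝ) ≤ ((j + 1 : ℕ) : ℝ) := by exact_mod_cast Nat.succ_le_succ (Nat.zero_le j)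
    obtain ⟨x, hx⟩ : ∃ x : ℝ, x = r + 2 * h * ((j + 1 : ℕ) : ℝ) := ⟨_, rfl⟩
    have hx0 : 0 < x := by rw [hx]; positivity
    have hxh : 2 * (h : ℝ) ≤ x := by rw [hx]; nlinarith
    have e1 : 3 * r + 2 * h * ((j + 1 : ℕ) : ℝ) = x * (1 + 2 * r / x) := by
      rw [hx] at hx0 ⊢
      field_simp
      ring
    rw [e1, ← hx, Real.log_mul hx0.ne' (by positivity), add_sub_cancel_left, abs_mul]
    have h3 : |(c (j + 1) : ℝ)| ≤ 1 := by exact_mod_cast hc (j + 1)
    have h4 : 0 ≤ Real.log (1 + 2 * r / x) := Real.log_nonneg (by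
      have : 0 ≤ 2 * r / x := by positivity
      linarith)
    have h5 : Real.log (1 + 2 * r / x) ≤ 2 * r / x := by
      have := Real.log_le_sub_one_of_pos (show 0 < 1 + 2 * r / x by positivity)
      linarith
    have h6 : 2 * r / x ≤ 1 / (100 * ((n + 1 : ℕ) : ℝ)) := by
      rw [div_le_div_iff₀ hx0 (by positivity)]
      nlinarith
    rw [abs_of_nonneg h4]
    nlinarith
  have hsum : |∑ j ∈ range n, (c (j + 1) : ℝ) * (Real.log (3 * r + 2 * h * ((j + 1 : ℕ) : ℝ)) -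
      Real.log (r + 2 * h * ((j + 1 : ℕ) : ℝ)))| ≤ 1 / 100 := by
    refine (Finset.abs_sum_le_sum_abs _ _).trans ((Finset.sum_le_sum hterm).trans ?_)
    rw [Finset.sum_const, Finset.card_range, nsmul_eq_mul]
    rw [mul_one_div, div_le_div_iff₀ (by positivity) (by norm_num)]
    push_cast
    nlinarith
  have h0 : (c 0 : ℝ) * (Real.log (3 * r + 2 * h * ((0 : ℕ) : ℝ)) -
      Real.log (r + 2 * h * ((0 : ℕ) : ℝ))) = c 0 * Real.log 3 := by
    simp only [Nat.cast_zero, mul_zero, add_zero]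
    rw [Real.log_mul (by norm_num) hr0.ne']
    ring
  rw [h0] at hdiff
  have hc1 : (1 : ℝ) ≤ |(c 0 : ℝ)| := by
    have : (1 : ℤ) ≤ |c 0| := Int.one_le_abs hc0
    exact_mod_cast this
  have h3 : (101 / 100 : ℝ) ≤ |(c 0 : ℝ) * Real.log 3| := by
    rw [abs_mul, abs_of_nonneg (show 0 ≤ Real.log 3 by linarith)]
    nlinarith
  have h4 : |PH c (n + 1) h (3 * r) - PH c (n + 1) h r| < 1 := by
    rw [abs_lt] at h1 h2 ⊢
    constructor <;> linarith [h1.1, h1.2, h2.1, h2.2]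
  rw [hdiff] at h4
  rw [abs_le] at hsum
  rw [abs_lt] at h4
  rcases abs_cases ((c 0 : ℝ) * Real.log 3) with ⟨e, _⟩ | ⟨e, _⟩
  · rw [e] at h3; linarith [h4.2, hsum.1]
  · rw [e] at h3; linarith [h4.1, hsum.2]

end Pool.Agent.OPH.H72
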