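import Pool.Agent.OPH.StmtsB

set_option autoImplicit false

/-! Squad OPH, row END: the combination of logarithms is small far away. -/

namespace Pool.Agent.OPH.H72

open Finset Pool.Agent.OPG Pool.Agent.OPH

theorem endS : EndStmt := by
  intro c N h l y hN hh hc hsum hy
  have hN1 : (1 : ℝ) ≤ N := by exact_mod_cast hN
  have hh1 : (1 : ℝ) ≤ h := by exact_mod_cast hh
  have hhN : (1 : ℝ) ≤ (h : ℝ) * N := by nlinarith
  have hy0 : (0 : ℝ) < y := by nlinarith
  -- the moments as real numbers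
  have hmom : ∀ r ≤ l, ∑ j ∈ range N, (c j : ℝ) * (j : ℝ) ^ r = 0 := by
    intro r hr
    have h1 := hsum r hr
    have h2 : ((∑ j ∈ range N, c j * (j : ℤ) ^ r : ℤ) : ℝ) = 0 := by rw [h1]; simp
    push_cast at h2
    exact h2
  obtain ⟨u, hu⟩ : ∃ u : ℕ → ℝ, ∀ j, u j = 2 * h * j / y := ⟨fun j => 2 * h * j / y, fun _ => rfl⟩
  have hu0 : ∀ j, 0 ≤ u j := by
    intro j; rw [hu]; positivity
  have hub : ∀ j ∈ range N, u j ≤ 1 / (8 * N) := by
    intro j hj
    rw [hu, div_le_div_iff₀ hy0 (by positivity)]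
    have hjN : (j : ℝ) ≤ N := by exact_mod_cast (Finset.mem_range.1 hj).le
    have h3 : 2 * (h : ℝ) * j * (8 * N) ≤ 2 * h * N * (8 * N) := by
      apply mul_le_mul_of_nonneg_right _ (by positivity)
      apply mul_le_mul_of_nonneg_left hjN (by positivity)
    have h4 : 2 * (h : ℝ) * N * (8 * N) ≤ (4 * (h : ℝ) * N) ^ 2 := by
      have : 0 ≤ 16 * (h : ℝ) * N ^ 2 * (h - 1) := by
        apply mul_nonneg (by positivity); linarith
      nlinarith
    linarith
  have hN8 : 1 / (8 * (N : ℝ)) ≤ 1 / 8 := by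
    apply one_div_le_one_div_of_le (by norm_num); linarith
  have hlog : ∀ j ∈ range N, Real.log (y + 2 * h * j) = Real.log y + Real.log (1 + u j) := by
    intro j _
    rw [← Real.log_mul hy0.ne' (by have := hu0 j; positivity), hu]
    congr 1
    field_simp
  have herr : ∀ j ∈ range N, |(∑ i ∈ range l, (-u j) ^ (i + 1) / ((i : ℝ) + 1)) +
      Real.log (1 + u j)| ≤ 2 * (1 / (8 * (N : ℝ))) ^ (l + 1) := by
    intro j hj
    have h1 := hub j hj
    have h2 := hu0 j
    have h3 : |-u j| < 1 := by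
      rw [abs_neg, abs_of_nonneg h2]; linarith
    have h4 := Real.abs_log_sub_add_sum_range_le h3 l
    rw [sub_neg_eq_add, abs_neg, abs_of_nonneg h2] at h4
    refine h4.trans ?_
    rw [div_le_iff₀ (by linarith)]
    have h5 : u j ^ (l + 1) ≤ (1 / (8 * (N : ℝ))) ^ (l + 1) := pow_le_pow_left₀ h2 h1 _
    have h6 : (0 : ℝ) ≤ (1 / (8 * (N : ℝ))) ^ (l + 1) := by positivity
    nlinarith
  -- the main identity
  have hid : PH c N h y = ∑ j ∈ range N, (c j : ℝ) *
      ((∑ i ∈ range l, (-u j) ^ (i + 1) / ((i : ℝ) + 1)) + Real.log (1 + u j)) := by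
    have h1 : ∑ j ∈ range N, (c j : ℝ) * (∑ i ∈ range l, (-u j) ^ (i + 1) / ((i : ℝ) + 1)) = 0 := by
      have h2 : ∀ j ∈ range N, (c j : ℝ) * (∑ i ∈ range l, (-u j) ^ (i + 1) / ((i : ℝ) + 1)) =
          ∑ i ∈ range l, (-(2 * (h : ℝ) / y)) ^ (i + 1) / ((i : ℝ) + 1) *
            ((c j : ℝ) * (j : ℝ) ^ (i + 1)) := by
        intro j _
        rw [Finset.mul_sum]
        refine Finset.sum_congr rfl fun i _ => ?_
        have h3 : -u j = -(2 * (h : ℝ) / y) * j := by rw [hu]; ring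
        rw [h3, mul_pow]
        ring
      rw [Finset.sum_congr rfl h2, Finset.sum_comm]
      refine Finset.sum_eq_zero fun i hi => ?_
      rw [← Finset.mul_sum, hmom (i + 1) (by have := Finset.mem_range.1 hi; omega), mul_zero]
    have h2 : ∑ j ∈ range N, (c j : ℝ) * Real.log y = 0 := by
      have h3 := hmom 0 (Nat.zero_le _)
      simp only [pow_zero, mul_one] at h3
      rw [← Finset.sum_mul, h3, zero_mul]
    unfold PH
    rw [Finset.sum_congr rfl (fun j hj => by rw [hlog j hj])]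
    simp only [mul_add, Finset.sum_add_distrib]
    rw [h1, h2]
  rw [hid]
  refine (Finset.abs_sum_le_sum_abs _ _).trans ?_
  have hterm : ∀ j ∈ range N, |(c j : ℝ) * ((∑ i ∈ range l, (-u j) ^ (i + 1) / ((i : ℝ) + 1)) +
      Real.log (1 + u j))| ≤ 2 * (1 / (8 * (N : ℝ))) ^ (l + 1) := by
    intro j hj
    rw [abs_mul]
    have h1 : |(c j : ℝ)| ≤ 1 := by exact_mod_cast hc j
    have h2 := herr j hj
    have h3 := abs_nonneg ((∑ i ∈ range l, (-u j) ^ (i + 1) / ((i : ℝ) + 1)) +
      Real.log (1 + u j))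
    nlinarith
  refine (Finset.sum_le_sum hterm).trans ?_
  rw [Finset.sum_const, Finset.card_range, nsmul_eq_mul]
  have h1 : (1 / (8 * (N : ℝ))) ^ (l + 1) ≤ 1 / 8 ^ l * (1 / (8 * N)) := by
    rw [pow_succ]
    apply mul_le_mul_of_nonneg_right _ (by positivity)
    rw [one_div_pow]
    apply one_div_le_one_div_of_le (by positivity)
    apply pow_le_pow_left₀ (by norm_num); linarith
  calc (N : ℝ) * (2 * (1 / (8 * (N : ℝ))) ^ (l + 1)) ≤ N * (2 * (1 / 8 ^ l * (1 / (8 * N)))) := by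
        apply mul_le_mul_of_nonneg_left _ (by linarith)
        linarith
    _ = 1 / 4 * (1 / 8 ^ l) := by field_simp; norm_num
    _ ≤ 1 * (1 / 2 ^ l) := by
        apply mul_le_mul (by norm_num) _ (by positivity) (by norm_num)
        apply one_div_le_one_div_of_le (by positivity)
        apply pow_le_pow_left₀ (by norm_num) (by norm_num)
    _ = 1 / 2 ^ l := one_mul _

end Pool.Agent.OPH.H72
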