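import Pool.Agent.Helper72_OPG.Final
import Pool.Agent.Helper72_OPG.PA2
import Pool.Agent.Helper72_OPH.MA2
import Pool.Agent.Helper5_OPH.SCA
import Pool.Agent.Helper37_OPH.PTE
import Pool.Agent.Helper77_OPH.FI2
import Pool.Agent.Helper38_OPH.LGX
import Pool.Agent.Helper67_OPH.PT2
import Pool.Agent.Helper68_OPH.RE2
import Pool.Agent.Helper81_OPH.LAN
import Pool.Agent.Helper81_OPH.END
import Pool.Agent.Helper81_OPH.DV2
import Pool.Agent.Helper44_OPH.GR2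
import Pool.Agent.Helper64_OPH.EXT
import Pool.Agent.Helper28_OPH.ORD
import Pool.Agent.Helper59_OPH.DKL
import Pool.Agent.Helper87_OPH.STA

set_option autoImplicit false

/-! Squad OPH: assembly of the rows. -/

namespace Pool.Agent.OPH.H72

open Pool.Agent.OPG Pool.Agent.OPH

theorem scaStmt : ScaStmt :=
  Pool.Agent.OPH.H5.sca Pool.Agent.OPH.H37.pte (Pool.Agent.OPH.H64.ext Pool.Agent.OPH.H38.lgx)
    Pool.Agent.OPH.H87.sta Pool.Agent.OPH.H81.end_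

theorem pt2Stmt : Pt2Stmt :=
  Pool.Agent.OPH.H67.pt2 (Pool.Agent.OPH.H44.gr2 scaStmt) Pool.Agent.OPH.H28.ord

theorem ma2Stmt : Ma2Stmt :=
  ma2 Pool.Agent.OPG.H68.chg Pool.Agent.OPG.H72.ct3Stmt
    (pa2 pt2Stmt Pool.Agent.OPG.H27.tel Pool.Agent.OPG.H66.gdb Pool.Agent.OPG.H17.bad)

theorem dv2Stmt : Dv2Stmt :=
  Pool.Agent.OPH.H81.dv2 Pool.Agent.OPH.H81.lan Pool.Agent.OPH.H59.dkl

theorem fi2Stmt : Fi2Stmt := Pool.Agent.OPH.H77.fi2 ma2Stmt dv2Stmt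

theorem re2Stmt : Re2Stmt := Pool.Agent.OPH.H68.re2 fi2Stmt

end Pool.Agent.OPH.H72
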